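import Mathlib
import Pool.Agent.Helper998.VecMatroid

/-!
MP_9a4f8a_co: `γ(p) ≥ 3 p + 1` for every prime `p`.  The rank-3 Dowling geometry of the
multiplicative group of `ZMod p` has `3 p` points and is representable over `ZMod p` and over `ℂ`.
-/

set_option autoImplicit false

namespace Pool.Agent.Results.MP_9a4f8a_co.LowerBound

open Set

/-- `M` is representable over the field `K`: there is a map from the points to a `K`-vector space
under which the independent sets are exactly the sets sent injectively to linearly independent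
sets. -/
def Representable {E : Type} (M : Matroid E) (K : Type) [Field K] : Prop :=
  ∃ (V : Type) (_ : AddCommGroup V) (_ : Module K V) (f : E → V),
    ∀ I : Set E, M.Indep I ↔ LinearIndepOn K f I

/-- All points of `E` are elements of `M`, no point is a loop and no two points are parallel. -/
def IsSimple {E : Type} (M : Matroid E) : Prop :=
  M.E = Set.univ ∧ ∀ x y : E, M.Indep {x, y}

/-- the rank of `M` is three -/
def RankThree {E : Type} (M : Matroid E) : Prop := ∃ B, M.IsBase B ∧ B.ncard = 3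

/-- The property whose least `N` is `γ(p)`: every field over which a simple rank-3
`GF(p)`-representable matroid with at least `N` points is representable has characteristic `p`. -/
def SizeForcesChar (p : ℕ) [Fact p.Prime] (N : ℕ) : Prop :=
  ∀ (E : Type) [Finite E] (M : Matroid E), IsSimple M → RankThree M →
    Representable M (ZMod p) → N ≤ Nat.card E →
    ∀ (K : Type) [Field K], Representable M K → CharP K p

/-! ### Families of vectors in `K³` -/

section general

variable {E : Type} {K : Type} [Field K]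

theorem indepOn_triple (v : E → Fin 3 → K) {x y z : E} (hxy : x ≠ y) (hxz : x ≠ z) (hyz : y ≠ z) :
    LinearIndepOn K v {x, y, z} ↔ (Matrix.of ![v x, v y, v z]).det ≠ 0 := by
  have hinj : Function.Injective (![x, y, z] : Fin 3 → E) := by
    intro i j hij
    fin_cases i <;> fin_cases j <;> simp_all
  have hr : Set.range (![x, y, z] : Fin 3 → E) = {x, y, z} := by
    ext e
    simp only [Set.mem_range, Fin.exists_fin_succ, Set.mem_insert_iff, Set.mem_singleton_iff]
    simp [eq_comm]
  rw [← hr, linearIndepOn_range_iff hinj, ← isUnit_iff_ne_zero, ← Matrix.isUnit_iff_isUnit_det,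
    ← Matrix.linearIndependent_rows_iff_isUnit]
  have : (v ∘ ![x, y, z]) = (Matrix.of ![v x, v y, v z]).row := by
    funext i
    fin_cases i <;> rfl
  rw [this]

theorem card_le_three [Finite E] (v : E → Fin 3 → K) {I : Set E} (h : LinearIndepOn K v I) :
    I.ncard ≤ 3 := by
  have hf : I.Finite := I.toFinite
  have := hf.fintype
  have h1 := LinearIndependent.fintype_card_le_finrank (R := K) (b := fun x : I => v x) h
  rw [Module.finrank_fin_fun] at h1
  rwa [← Nat.card_eq_fintype_card, Nat.card_coe_set_eq] at h1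

theorem indep_iff [Finite E] {L : Type} [Field L] (v : E → Fin 3 → K) (w : E → Fin 3 → L)
    (hv2 : ∀ x y, x ≠ y → LinearIndepOn K v {x, y})
    (hw2 : ∀ x y, x ≠ y → LinearIndepOn L w {x, y})
    (hv1 : ∀ x, LinearIndepOn K v {x}) (hw1 : ∀ x, LinearIndepOn L w {x})
    (h3 : ∀ x y z, x ≠ y → x ≠ z → y ≠ z →
      ((Matrix.of ![v x, v y, v z]).det = 0 ↔ (Matrix.of ![w x, w y, w z]).det = 0))
    (I : Set E) : LinearIndepOn K v I ↔ LinearIndepOn L w I := by
  rcases Nat.lt_or_ge 3 I.ncard with h | h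
  · constructor
    · intro h'
      have := card_le_three v h'
      omega
    · intro h'
      have := card_le_three w h'
      omega
  · have hI : I.ncard = 0 ∨ I.ncard = 1 ∨ I.ncard = 2 ∨ I.ncard = 3 := by omega
    rcases hI with h0 | h1 | h2 | h3'
    · rw [Set.ncard_eq_zero (Set.toFinite I)] at h0
      subst h0
      simp
    · obtain ⟨x, rfl⟩ := Set.ncard_eq_one.mp h1
      exact ⟨fun _ => hw1 x, fun _ => hv1 x⟩
    · obtain ⟨x, y, hxy, rfl⟩ := Set.ncard_eq_two.mp h2
      exact ⟨fun _ => hw2 x y hxy, fun _ => hv2 x y hxy⟩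
    · obtain ⟨x, y, z, hxy, hxz, hyz, rfl⟩ := Set.ncard_eq_three.mp h3'
      rw [indepOn_triple v hxy hxz hyz, indepOn_triple w hxy hxz hyz, not_iff_not]
      exact h3 x y z hxy hxz hyz

end general

/-! ### The Dowling geometry -/

/-- the point `(i, a)` is `e_{i+1} - χ(a) e_{i+2}` -/
def pt {F K : Type} [Field K] (χ : F → K) : Fin 3 × F → Fin 3 → K
  | (0, a) => ![0, 1, -χ a]
  | (1, a) => ![-χ a, 0, 1]
  | (2, a) => ![1, -χ a, 0]

/-- an injective multiplicative map between fields -/
structure Mu {F K : Type} [Field F] [Field K] (χ : F → K) : Prop where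
  zero : χ 0 = 0
  one : χ 1 = 1
  mul : ∀ a b, χ (a * b) = χ a * χ b
  inj : Function.Injective χ

variable {F K : Type} [Field F] [Field K] {χ : F → K}

theorem iff_pos {P l : K} {Q r : F} (h : P = 0 ↔ Q = 0) (h1 : l = P) (h2 : r = Q) :
    l = 0 ↔ r = 0 := by
  rw [h1, h2]; exact h

theorem iff_neg {P l : K} {Q r : F} (h : P = 0 ↔ Q = 0) (h1 : l = -P) (h2 : r = -Q) :
    l = 0 ↔ r = 0 := by
  rw [h1, h2, neg_eq_zero, neg_eq_zero]; exact h

theorem det_iff (h : Mu χ) (x y z : Fin 3 × F) :
    (Matrix.of ![pt χ x, pt χ y, pt χ z]).det = 0 ↔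
      (Matrix.of ![pt (id : F → F) x, pt id y, pt id z]).det = 0 := by
  have h0 : (0 : K) = 0 ↔ (0 : F) = 0 := by simp
  have h1 : ∀ a b : F, χ a - χ b = 0 ↔ a - b = 0 := by
    intro a b
    rw [sub_eq_zero, sub_eq_zero]
    exact h.inj.eq_iff
  have h2 : ∀ a : F, χ a = 0 ↔ a = 0 := by
    intro a
    rw [← h.zero]
    exact h.inj.eq_iff
  have h3 : ∀ a b c : F, 1 - χ a * χ b * χ c = 0 ↔ 1 - a * b * c = 0 := by
    intro a b c
    rw [← h.mul, ← h.mul, ← h.one]
    exact h1 _ _
  have h4 : ∀ a b c : F, χ a * (χ b - χ c) = 0 ↔ a * (b - c) = 0 := by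
    intro a b c
    rw [mul_eq_zero, mul_eq_zero, h1, h2]
  obtain ⟨i, a⟩ := x
  obtain ⟨j, b⟩ := y
  obtain ⟨k, c⟩ := z
  fin_cases i <;> fin_cases j <;> fin_cases k <;>
    simp only [pt, Matrix.det_fin_three, Matrix.of_apply, Matrix.cons_val', Matrix.cons_val_zero,
      Matrix.cons_val_one, Matrix.cons_val, Matrix.cons_val_fin_one, id_eq, Fin.zero_eta,
      Fin.mk_one, Fin.reduceFinMk] <;>
    first
    | (refine iff_pos h0 ?_ ?_ <;> ring1)
    | (refine iff_pos (h3 a b c) ?_ ?_ <;> ring1)
    | (refine iff_neg (h3 a b c) ?_ ?_ <;> ring1)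
    | (refine iff_pos (h1 a b) ?_ ?_ <;> ring1)
    | (refine iff_neg (h1 a b) ?_ ?_ <;> ring1)
    | (refine iff_pos (h1 a c) ?_ ?_ <;> ring1)
    | (refine iff_neg (h1 a c) ?_ ?_ <;> ring1)
    | (refine iff_pos (h1 b c) ?_ ?_ <;> ring1)
    | (refine iff_neg (h1 b c) ?_ ?_ <;> ring1)
    | (refine iff_pos (h4 a b c) ?_ ?_ <;> ring1)
    | (refine iff_neg (h4 a b c) ?_ ?_ <;> ring1)
    | (refine iff_pos (h4 b a c) ?_ ?_ <;> ring1)
    | (refine iff_neg (h4 b a c) ?_ ?_ <;> ring1)
    | (refine iff_pos (h4 c a b) ?_ ?_ <;> ring1)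
    | (refine iff_neg (h4 c a b) ?_ ?_ <;> ring1)

theorem pt_ne (x : Fin 3 × F) : pt χ x ≠ 0 := by
  obtain ⟨i, a⟩ := x
  intro h0
  fin_cases i
  · have := congrFun h0 1
    simp [pt] at this
  · have := congrFun h0 2
    simp [pt] at this
  · have := congrFun h0 0
    simp [pt] at this

theorem indep_one (x : Fin 3 × F) : LinearIndepOn K (pt χ) {x} :=
  LinearIndepOn.singleton (pt_ne x)

theorem indep_two (h : Mu χ) (x y : Fin 3 × F) (hxy : x ≠ y) : LinearIndepOn K (pt χ) {x, y} := by
  rw [LinearIndepOn.pair_iff (pt χ) hxy]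
  obtain ⟨i, a⟩ := x
  obtain ⟨j, b⟩ := y
  intro s t hst
  have e0 := congrFun hst 0
  have e1 := congrFun hst 1
  have e2 := congrFun hst 2
  have key : ∀ u v : K, ∀ a' b' : F, a' ≠ b' → u + v = 0 → u * χ a' + v * χ b' = 0 →
      u = 0 ∧ v = 0 := by
    intro u v a' b' hab h1 h2
    have hab' : χ a' - χ b' ≠ 0 := by
      rw [sub_ne_zero]
      intro h'
      exact hab (h.inj h')
    have hs : u * (χ a' - χ b') = 0 := by linear_combination h2 - χ b' * h1
    have hs0 : u = 0 := (mul_eq_zero.mp hs).resolve_right hab'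
    exact ⟨hs0, by linear_combination h1 - hs0⟩
  fin_cases i <;> fin_cases j <;> simp only [pt, Pi.add_apply, Pi.smul_apply, smul_eq_mul,
    Matrix.cons_val_zero, Matrix.cons_val_one, Matrix.cons_val, Pi.zero_apply, mul_zero, mul_one,
    zero_add, add_zero, Fin.zero_eta, Fin.mk_one, Fin.reduceFinMk] at e0 e1 e2
  · exact key s t a b (fun h' => hxy (by rw [h'])) e1 (by linear_combination -e2)
  · refine ⟨e1, ?_⟩
    rw [e1] at e2
    linear_combination e2
  · have ht : t = 0 := e0
    refine ⟨?_, ht⟩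
    rw [ht] at e1
    linear_combination e1
  · have ht : t = 0 := e1
    refine ⟨?_, ht⟩
    rw [ht] at e2
    linear_combination e2
  · exact key s t a b (fun h' => hxy (by rw [h'])) e2 (by linear_combination -e0)
  · refine ⟨e2, ?_⟩
    rw [e2] at e0
    linear_combination e0
  · refine ⟨e0, ?_⟩
    rw [e0] at e1
    linear_combination e1
  · have ht : t = 0 := e2
    refine ⟨?_, ht⟩
    rw [ht] at e0
    linear_combination e0
  · exact key s t a b (fun h' => hxy (by rw [h'])) e0 (by linear_combination -e1)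

/-- the geometry over `K` and over `F` is the same -/
theorem same [Finite F] (h : Mu χ) (I : Set (Fin 3 × F)) :
    LinearIndepOn F (pt (id : F → F)) I ↔ LinearIndepOn K (pt χ) I := by
  have hid : Mu (id : F → F) := ⟨rfl, rfl, fun _ _ => rfl, Function.injective_id⟩
  exact indep_iff _ _ (indep_two hid) (indep_two h) indep_one indep_one
    (fun x y z _ _ _ => (det_iff h x y z).symm) I

/-- an injective multiplicative map from `ZMod p` to `ℂ` -/
theorem exists_mu (p : ℕ) [Fact p.Prime] : ∃ χ : ZMod p → ℂ, Mu χ := by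
  classical
  have hp : 1 < p := (Fact.out : p.Prime).one_lt
  have : NeZero (p - 1) := ⟨by omega⟩
  have hc : Nat.card (ZMod p)ˣ = Nat.card (rootsOfUnity (p - 1) ℂ) := by
    rw [Complex.card_rootsOfUnity, Nat.card_eq_fintype_card, ZMod.card_units_eq_totient,
      Nat.totient_prime Fact.out]
  let e : (ZMod p)ˣ ≃* rootsOfUnity (p - 1) ℂ := mulEquivOfCyclicCardEq hc
  let χ : ZMod p → ℂ := fun a => if h : a = 0 then 0 else (((e (Units.mk0 a h) : ℂˣ)) : ℂ)
  have hχ : ∀ (a : ZMod p) (h : a ≠ 0), χ a = (((e (Units.mk0 a h) : ℂˣ)) : ℂ) := by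
    intro a h
    simp only [χ, dif_neg h]
  have hne : ∀ (a : ZMod p), a ≠ 0 → χ a ≠ 0 := by
    intro a h
    rw [hχ a h]
    exact Units.ne_zero _
  have h0 : χ 0 = 0 := by simp [χ]
  refine ⟨χ, h0, ?_, ?_, ?_⟩
  · rw [hχ 1 one_ne_zero]
    have : Units.mk0 (1 : ZMod p) one_ne_zero = 1 := by ext; rfl
    rw [this, map_one]
    rfl
  · intro a b
    by_cases ha : a = 0
    · rw [ha, zero_mul, h0, zero_mul]
    by_cases hb : b = 0
    · rw [hb, mul_zero, h0, mul_zero]
    rw [hχ a ha, hχ b hb, hχ _ (mul_ne_zero ha hb)]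
    have : Units.mk0 (a * b) (mul_ne_zero ha hb) = Units.mk0 a ha * Units.mk0 b hb := by
      ext; rfl
    rw [this, map_mul]
    rfl
  · intro a b hab
    by_cases ha : a = 0
    · by_contra hne'
      have hb : b ≠ 0 := fun hb => hne' (by rw [ha, hb])
      rw [ha, h0] at hab
      exact hne b hb hab.symm
    by_cases hb : b = 0
    · rw [hb, h0] at hab
      exact absurd hab (hne a ha)
    rw [hχ a ha, hχ b hb] at hab
    have h1 := e.injective (Subtype.ext (Units.ext hab))
    have h2 := congrArg Units.val h1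
    exact h2

open Pool.Agent.Helper998.VecMatroid in
/-- **Theorem.**  `γ(p) ≥ 3 p + 1` for every prime `p`: every `N` such that all fields over which a
simple rank-3 `GF(p)`-representable matroid with at least `N` points is representable have
characteristic `p` satisfies `3 p + 1 ≤ N`. -/
theorem result (p : ℕ) [Fact p.Prime] (N : ℕ) (hN : SizeForcesChar p N) : 3 * p + 1 ≤ N := by
  by_contra hcon
  push Not at hcon
  obtain ⟨χ, hχ⟩ := exists_mu p
  have hid : Mu (id : ZMod p → ZMod p) := ⟨rfl, rfl, fun _ _ => rfl, Function.injective_id⟩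
  let v : Fin 3 × ZMod p → Fin 3 → ZMod p := pt id
  have hindep : ∀ I, (vecMatroid (ZMod p) v).Indep I ↔ LinearIndepOn (ZMod p) v I :=
    fun I => vecMatroid_indep v
  have hchar := hN (Fin 3 × ZMod p) (vecMatroid (ZMod p) v) ⟨rfl, ?_⟩ ?_
    ⟨Fin 3 → ZMod p, inferInstance, inferInstance, v, hindep⟩ ?_ ℂ
    ⟨Fin 3 → ℂ, inferInstance, inferInstance, pt χ, fun I => (hindep I).trans (same hχ I)⟩
  · have h1 : (p : ℂ) = 0 := (CharP.cast_eq_zero_iff ℂ p p).mpr dvd_rfl
    have h2 : p = 0 := by exact_mod_cast h1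
    exact (Fact.out : p.Prime).ne_zero h2
  · intro x y
    rw [hindep]
    by_cases hxy : x = y
    · rw [hxy, Set.pair_eq_singleton]
      exact indep_one y
    · exact indep_two hid x y hxy
  · refine ⟨{((0 : Fin 3), (0 : ZMod p)), (1, 0), (2, 0)}, ?_, ?_⟩
    · have h3 : LinearIndepOn (ZMod p) v {((0 : Fin 3), (0 : ZMod p)), (1, 0), (2, 0)} := by
        rw [indepOn_triple v (by simp) (by simp) (by simp)]
        simp [v, pt, Matrix.det_fin_three]
      rw [Matroid.isBase_iff_maximal_indep]
      refine ⟨(hindep _).mpr h3, ?_⟩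
      intro J hJ hsub
      have hJ3 := card_le_three v ((hindep J).mp hJ)
      have hc : ({((0 : Fin 3), (0 : ZMod p)), (1, 0), (2, 0)} : Set (Fin 3 × ZMod p)).ncard = 3 := by
        rw [Set.ncard_eq_three]
        exact ⟨_, _, _, by simp, by simp, by simp, rfl⟩
      have := Set.eq_of_subset_of_ncard_le hsub (by rw [hc]; exact hJ3) (Set.toFinite J)
      rw [this]
    · rw [Set.ncard_eq_three]
      exact ⟨_, _, _, by simp, by simp, by simp, rfl⟩
  · rw [Nat.card_prod, Nat.card_eq_fintype_card, Fintype.card_fin, Nat.card_zmod]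
    omega

end Pool.Agent.Results.MP_9a4f8a_co.LowerBound
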